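import Pool.Agent.Helper30.SY.St2

/-!
# Project SY, module ORD: completion to a tournament, choice of constants
-/

set_option autoImplicit false

namespace Pool.Agent.Helper5.SY

open Finset Pool.Agent.Helper30.SY

/-- The completion of `s`. -/
private def cpl {n : ℕ} (s : Fin n → Fin n → ℤ) (x y : Fin n) : ℤ :=
  if s x y = 0 then (if x < y then 1 else if y < x then -1 else 0) else s x y

private theorem cpl_sk {n : ℕ} {s : Fin n → Fin n → ℤ} (hs : Circ s) (x y : Fin n) :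
    cpl s x y = - cpl s y x := by
  have h := hs.sk x y
  unfold cpl
  by_cases h0 : s x y = 0
  · have h1 : s y x = 0 := by omega
    rw [if_pos h0, if_pos h1]
    rcases lt_trichotomy x y with h2 | h2 | h2
    · rw [if_pos h2, if_neg (not_lt.2 h2.le), if_pos h2]
      rfl
    · subst h2
      simp
    · rw [if_neg (not_lt.2 h2.le), if_pos h2, if_pos h2]
  · have h1 : s y x ≠ 0 := by omega
    rw [if_neg h0, if_neg h1]
    exact h

private theorem cpl_ne {n : ℕ} {s : Fin n → Fin n → ℤ} (hs : Circ s) (x y : Fin n)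
    (hxy : x ≠ y) : cpl s x y = 1 ∨ cpl s x y = -1 := by
  unfold cpl
  by_cases h0 : s x y = 0
  · rw [if_pos h0]
    rcases lt_or_gt_of_ne hxy with h2 | h2
    · left
      rw [if_pos h2]
    · right
      rw [if_neg (not_lt.2 h2.le), if_pos h2]
  · rw [if_neg h0]
    rcases hs.v1 x y with h | h | h
    · exact Or.inr h
    · exact absurd h h0
    · exact Or.inl h

/-- An arc of the completion is an arc or a missing pair. -/
private theorem cpl_one {n : ℕ} {s : Fin n → Fin n → ℤ} (x y : Fin n)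
    (h : cpl s x y = 1) : s x y = 1 ∨ (x ≠ y ∧ s x y = 0) := by
  unfold cpl at h
  by_cases h0 : s x y = 0
  · right
    refine ⟨?_, h0⟩
    rintro rfl
    rw [if_pos h0, if_neg (lt_irrefl _), if_neg (lt_irrefl _)] at h
    exact absurd h (by norm_num)
  · rw [if_neg h0] at h
    exact Or.inl h

private def Mis {n : ℕ} (s : Fin n → Fin n → ℤ) : Finset (Fin n × Fin n) :=
  univ.filter fun p : Fin n × Fin n => p.1 ≠ p.2 ∧ s p.1 p.2 = 0

private theorem mem_Mis {n : ℕ} {s : Fin n → Fin n → ℤ} {x y : Fin n} (h : x ≠ y)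
    (h0 : s x y = 0) : (x, y) ∈ Mis s := by
  unfold Mis
  exact mem_filter.2 ⟨mem_univ _, h, h0⟩

private theorem c3_le {n : ℕ} (s : Fin n → Fin n → ℤ) (S : Finset (Fin n)) :
    c3 (cpl s) S ≤ c3 s S + 3 * (mis s * n) := by
  have hcard : ∀ f : (Fin n × Fin n) × Fin n → Fin n × Fin n × Fin n,
      ((Mis s ×ˢ (univ : Finset (Fin n))).image f).card ≤ mis s * n := by
    intro f
    refine card_image_le.trans ?_
    rw [card_product, card_univ, Fintype.card_fin]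
    exact le_rfl
  set M1 := (Mis s ×ˢ (univ : Finset (Fin n))).image
    (fun q : (Fin n × Fin n) × Fin n => (q.1.1, q.1.2, q.2)) with hM1
  set M2 := (Mis s ×ˢ (univ : Finset (Fin n))).image
    (fun q : (Fin n × Fin n) × Fin n => (q.2, q.1.1, q.1.2)) with hM2
  set M3 := (Mis s ×ˢ (univ : Finset (Fin n))).image
    (fun q : (Fin n × Fin n) × Fin n => (q.1.2, q.2, q.1.1)) with hM3
  have hsub : ((S ×ˢ S ×ˢ S).filter fun p =>
      cpl s p.1 p.2.1 = 1 ∧ cpl s p.2.1 p.2.2 = 1 ∧ cpl s p.2.2 p.1 = 1) ⊆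
      ((((S ×ˢ S ×ˢ S).filter fun p => s p.1 p.2.1 = 1 ∧ s p.2.1 p.2.2 = 1 ∧ s p.2.2 p.1 = 1) ∪
        M1) ∪ M2) ∪ M3 := by
    rintro ⟨x, y, z⟩ hp
    obtain ⟨hS, h1, h2, h3⟩ := mem_filter.1 hp
    dsimp only at h1 h2 h3
    rcases cpl_one x y h1 with k1 | ⟨k1, k1'⟩
    · rcases cpl_one y z h2 with k2 | ⟨k2, k2'⟩
      · rcases cpl_one z x h3 with k3 | ⟨k3, k3'⟩
        · exact mem_union_left _ (mem_union_left _ (mem_union_left _
            (mem_filter.2 ⟨hS, k1, k2, k3⟩)))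
        · refine mem_union_right _ (mem_image.2 ⟨((z, x), y), ?_, rfl⟩)
          exact mem_product.2 ⟨mem_Mis k3 k3', mem_univ _⟩
      · refine mem_union_left _ (mem_union_right _ (mem_image.2 ⟨((y, z), x), ?_, rfl⟩))
        exact mem_product.2 ⟨mem_Mis k2 k2', mem_univ _⟩
    · refine mem_union_left _ (mem_union_left _ (mem_union_right _
        (mem_image.2 ⟨((x, y), z), ?_, rfl⟩)))
      exact mem_product.2 ⟨mem_Mis k1 k1', mem_univ _⟩
  have e := card_le_card hsub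
  have e1 := card_union_le (((((S ×ˢ S ×ˢ S).filter fun p =>
    s p.1 p.2.1 = 1 ∧ s p.2.1 p.2.2 = 1 ∧ s p.2.2 p.1 = 1) ∪ M1) ∪ M2)) M3
  have e2 := card_union_le ((((S ×ˢ S ×ˢ S).filter fun p =>
    s p.1 p.2.1 = 1 ∧ s p.2.1 p.2.2 = 1 ∧ s p.2.2 p.1 = 1) ∪ M1)) M2
  have e3 := card_union_le ((S ×ˢ S ×ˢ S).filter fun p =>
    s p.1 p.2.1 = 1 ∧ s p.2.1 p.2.2 = 1 ∧ s p.2.2 p.1 = 1) M1
  have f1 := hcard (fun q : (Fin n × Fin n) × Fin n => (q.1.1, q.1.2, q.2))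
  have f2 := hcard (fun q : (Fin n × Fin n) × Fin n => (q.2, q.1.1, q.1.2))
  have f3 := hcard (fun q : (Fin n × Fin n) × Fin n => (q.1.2, q.2, q.1.1))
  rw [← hM1] at f1
  rw [← hM2] at f2
  rw [← hM3] at f3
  unfold c3
  omega

private theorem bw_le {n : ℕ} {s : Fin n → Fin n → ℤ} (S : Finset (Fin n))
    (ρ : Fin n → ℕ) : bw s S ρ ≤ bw (cpl s) S ρ + mis s := by
  have hsub : ((S ×ˢ S).filter fun p => ρ p.1 < ρ p.2 ∧ s p.1 p.2 ≠ 1) ⊆
      ((S ×ˢ S).filter fun p => ρ p.1 < ρ p.2 ∧ cpl s p.1 p.2 ≠ 1) ∪ Mis s := by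
    rintro ⟨x, y⟩ hp
    obtain ⟨hS, h1, h2⟩ := mem_filter.1 hp
    dsimp only at h1 h2
    by_cases h3 : cpl s x y = 1
    · rcases cpl_one x y h3 with k | ⟨k, k'⟩
      · exact absurd k h2
      · exact mem_union_right _ (mem_Mis k k')
    · exact mem_union_left _ (mem_filter.2 ⟨hS, h1, h3⟩)
  have e := (card_le_card hsub).trans (card_union_le _ _)
  exact e

/-- **ORD.** -/
theorem hORD : StORD := by
  intro hF ε hε
  obtain ⟨l0, hl0⟩ := pow_unbounded_of_one_lt (4 / ε) (by norm_num : (1 : ℝ) < 8 / 7)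
  obtain ⟨l, hl1, hl⟩ : ∃ l : ℕ, 1 ≤ l ∧ 4 / ε ≤ (8 / 7 : ℝ) ^ l := by
    refine ⟨l0 + 1, by omega, hl0.le.trans ?_⟩
    exact pow_le_pow_right₀ (by norm_num) (by omega)
  have hlpos : (0 : ℝ) < l := by exact_mod_cast hl1
  obtain ⟨ξ, hξ0, hξ1, hξ2⟩ : ∃ ξ : ℝ, 0 < ξ ∧ ξ ≤ ε / 4 ∧ ξ ≤ ε ^ 2 / (288 * l) :=
    ⟨min (ε / 4) (ε ^ 2 / (288 * l)), lt_min (by positivity) (by positivity), min_le_left _ _,
      min_le_right _ _⟩
  refine ⟨ξ, ⌈24 / ε⌉₊ + 1, hξ0, ?_⟩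
  intro n hn s S hs hc hm
  have hn1 : (24 / ε : ℝ) ≤ n := (Nat.le_ceil _).trans (by exact_mod_cast (by omega : ⌈24 / ε⌉₊ ≤ n))
  have hn0 : (0 : ℝ) < n := by
    have : 0 < n := by omega
    exact_mod_cast this
  have h24 : 24 ≤ ε * n := by
    rw [div_le_iff₀ hε] at hn1
    linarith
  have hScard : (S.card : ℝ) ≤ n := by
    have := card_le_univ S
    rw [Fintype.card_fin] at this
    exact_mod_cast this
  have hh : (0 : ℝ) < ε * n / 4 := by positivity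
  obtain ⟨ρ, hρ, hb⟩ := hF n (cpl s) (ε * n / 4) l S (cpl_sk hs) (cpl_ne hs) (by linarith) (by
    calc (S.card : ℝ) ≤ n := hScard
      _ = 4 / ε * (ε * n / 4) := by field_simp
      _ ≤ (8 / 7 : ℝ) ^ l * (ε * n / 4) := mul_le_mul_of_nonneg_right hl hh.le)
  refine ⟨ρ, hρ, ?_⟩
  have h1 : (bw s S ρ : ℝ) ≤ bw (cpl s) S ρ + mis s := by exact_mod_cast bw_le S ρ
  have h2 : (c3 (cpl s) S : ℝ) ≤ c3 s S + 3 * (mis s * n) := by exact_mod_cast c3_le s S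
  have h3 : (mis s : ℝ) * n ≤ ξ * (n : ℝ) ^ 3 := by
    calc (mis s : ℝ) * n ≤ ξ * (n : ℝ) ^ 2 * n := mul_le_mul_of_nonneg_right hm hn0.le
      _ = ξ * (n : ℝ) ^ 3 := by ring
  have h4 : (c3 (cpl s) S : ℝ) ≤ 4 * ξ * (n : ℝ) ^ 3 := by linarith
  have h5 : 9 * (l : ℝ) * c3 (cpl s) S / (ε * n / 4) ≤ ε / 2 * (n : ℝ) ^ 2 := by
    rw [div_le_iff₀ hh]
    have h6 : 9 * (l : ℝ) * c3 (cpl s) S ≤ 9 * l * (4 * ξ * (n : ℝ) ^ 3) :=
      mul_le_mul_of_nonneg_left h4 (by positivity)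
    have h7 : ξ * (288 * l) ≤ ε ^ 2 := by
      rwa [le_div_iff₀ (by positivity)] at hξ2
    have h8 : ξ * (288 * l) * (n : ℝ) ^ 3 ≤ ε ^ 2 * (n : ℝ) ^ 3 :=
      mul_le_mul_of_nonneg_right h7 (by positivity)
    calc 9 * (l : ℝ) * c3 (cpl s) S ≤ 9 * l * (4 * ξ * (n : ℝ) ^ 3) := h6
      _ = ξ * (288 * l) * (n : ℝ) ^ 3 / 8 := by ring
      _ ≤ ε ^ 2 * (n : ℝ) ^ 3 / 8 := by linarith
      _ = ε / 2 * (n : ℝ) ^ 2 * (ε * n / 4) := by ring
  have h9 : (S.card : ℝ) * (ε * n / 4) ≤ ε / 4 * (n : ℝ) ^ 2 := by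
    calc (S.card : ℝ) * (ε * n / 4) ≤ n * (ε * n / 4) := mul_le_mul_of_nonneg_right hScard hh.le
      _ = ε / 4 * (n : ℝ) ^ 2 := by ring
  have h10 : ξ * (n : ℝ) ^ 2 ≤ ε / 4 * (n : ℝ) ^ 2 :=
    mul_le_mul_of_nonneg_right hξ1 (by positivity)
  have h11 : ε / 4 * (n : ℝ) ^ 2 + ε / 2 * (n : ℝ) ^ 2 + ε / 4 * (n : ℝ) ^ 2 = ε * (n : ℝ) ^ 2 := by
    ring
  linarith

end Pool.Agent.Helper5.SY
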